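import Mathlib

/-!
# MP_cb28d9_gt, Q1: the answer is NO

There is a Hausdorff topological semilattice all of whose maximal chains are
s-complete while the semilattice itself is not s-complete.

Construction.  Let `Ω` be a well-order with a top element `⊤` such that every countable
set of elements below `⊤` is bounded strictly below `⊤` (`ω₁ + 1`).  The points are the
pairs `(d, A)` with `Iio d ⊆ A ⊆ Iio ⊤`, `A \ Iio d` finite and `d < ⊤`, together with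
twins `e d` of the points `(d, Iio d)` placed just below them (and `e ⊤` is the least
element).  The order is reverse inclusion.
-/

namespace Pool.Agent.Results.MP_cb28d9_gt.MaximalChains

set_option linter.unusedSectionVars false

open Set

/-- `L` (a subset of the topological semilattice `X`, thought of as a semilattice with the
induced order and the induced topology) is s-complete: every nonempty subsemilattice `S` of
`L` has an infimum in `L`, lying in the closure (in `L`) of the upper set of `S` in `L`, and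
every nonempty chain `C` in `L` has a supremum in `L`, lying in the closure (in `L`) of the
lower set of `C` in `L`.  (For `T ⊆ L` and `m ∈ L`, `m` is in the closure of `T` in `L` iff
it is in the closure of `T` in `X`.)  `SComplete Set.univ` says that `X` is s-complete. -/
def SComplete {X : Type} [SemilatticeInf X] [TopologicalSpace X] (L : Set X) : Prop :=
  (∀ S : Set X, S ⊆ L → S.Nonempty → (∀ x ∈ S, ∀ y ∈ S, x ⊓ y ∈ S) →
    ∃ m ∈ L, (∀ s ∈ S, m ≤ s) ∧ (∀ b ∈ L, (∀ s ∈ S, b ≤ s) → b ≤ m) ∧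
      m ∈ closure {x | x ∈ L ∧ ∃ s ∈ S, s ≤ x}) ∧
  (∀ C : Set X, C ⊆ L → C.Nonempty → IsChain (· ≤ ·) C →
    ∃ m ∈ L, (∀ c ∈ C, c ≤ m) ∧ (∀ b ∈ L, (∀ c ∈ C, c ≤ b) → m ≤ b) ∧
      m ∈ closure {x | x ∈ L ∧ ∃ c ∈ C, x ≤ c})

/-- The points of the semilattice over the well-order `Ω`. -/
@[ext] structure Pt (Ω : Type) [LinearOrder Ω] [BoundedOrder Ω] where
  d : Ω
  A : Set Ω
  E : Prop
  hA : Iio d ⊆ A
  hf : (A \ Iio d).Finite
  ht : ⊤ ∉ A
  h1 : ¬ E → d < ⊤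
  h0 : E → A = Iio d

section
variable {Ω : Type} [LinearOrder Ω] [BoundedOrder Ω]

instance : LE (Pt Ω) where
  le x y := y.d ≤ x.d ∧ y.A ⊆ x.A ∧ (x.d = y.d → x.A = y.A → y.E → x.E)

lemma le_def {x y : Pt Ω} :
    x ≤ y ↔ y.d ≤ x.d ∧ y.A ⊆ x.A ∧ (x.d = y.d → x.A = y.A → y.E → x.E) := Iff.rfl

/-- the operation -/
def inf (x y : Pt Ω) : Pt Ω where
  d := max x.d y.d
  A := x.A ∪ y.A
  E := (x.E ∧ y.d ≤ x.d ∧ y.A ⊆ x.A) ∨ (y.E ∧ x.d ≤ y.d ∧ x.A ⊆ y.A)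
  hA := by
    intro z hz
    rcases lt_max_iff.1 hz with h | h
    · exact Or.inl (x.hA h)
    · exact Or.inr (y.hA h)
  hf := by
    refine (x.hf.union y.hf).subset ?_
    rintro z ⟨hz, hz'⟩
    simp only [mem_Iio, lt_max_iff, not_or] at hz'
    rcases hz with h | h
    · exact Or.inl ⟨h, hz'.1⟩
    · exact Or.inr ⟨h, hz'.2⟩
  ht := by
    rintro (h | h)
    · exact x.ht h
    · exact y.ht h
  h1 := by
    intro h
    push Not at h
    refine max_lt ?_ ?_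
    · by_contra hx
      have hx' : x.d = ⊤ := top_le_iff.1 (not_lt.1 hx)
      have hE : x.E := by
        by_contra hE
        exact hx (x.h1 hE)
      have h2 := h.1 hE (by rw [hx']; exact le_top)
      apply h2
      rw [x.h0 hE, hx']
      intro z hz
      refine lt_top_iff_ne_top.2 ?_
      rintro rfl
      exact y.ht hz
    · by_contra hx
      have hx' : y.d = ⊤ := top_le_iff.1 (not_lt.1 hx)
      have hE : y.E := by
        by_contra hE
        exact hx (y.h1 hE)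
      have h2 := h.2 hE (by rw [hx']; exact le_top)
      apply h2
      rw [y.h0 hE, hx']
      intro z hz
      refine lt_top_iff_ne_top.2 ?_
      rintro rfl
      exact x.ht hz
  h0 := by
    rintro (⟨h, h', h''⟩ | ⟨h, h', h''⟩)
    · rw [max_eq_left h', union_eq_left.2 h'', x.h0 h]
    · rw [max_eq_right h', union_eq_right.2 h'', y.h0 h]

instance : SemilatticeInf (Pt Ω) where
  inf := inf
  le_refl x := ⟨le_rfl, Subset.rfl, fun _ _ h => h⟩
  le_trans x y z := by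
    rintro ⟨h1, h2, h3⟩ ⟨h4, h5, h6⟩
    refine ⟨h4.trans h1, h5.trans h2, ?_⟩
    intro e1 e2 hz
    have e3 : x.d = y.d := le_antisymm (e1 ▸ h4) h1
    have e4 : x.A = y.A := Subset.antisymm (e2 ▸ h5) h2
    exact h3 e3 e4 (h6 (e3 ▸ e1) (e4 ▸ e2) hz)
  le_antisymm x y := by
    rintro ⟨h1, h2, h3⟩ ⟨h4, h5, h6⟩
    have e3 : x.d = y.d := le_antisymm h4 h1
    have e4 : x.A = y.A := Subset.antisymm h5 h2
    exact Pt.ext e3 e4 (propext ⟨h6 e3.symm e4.symm, h3 e3 e4⟩)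
  inf_le_left x y := by
    refine ⟨le_max_left _ _, subset_union_left, ?_⟩
    intro e1 e2 hx
    exact Or.inl ⟨hx, max_eq_left_iff.1 e1, union_eq_left.1 e2⟩
  inf_le_right x y := by
    refine ⟨le_max_right _ _, subset_union_right, ?_⟩
    intro e1 e2 hx
    exact Or.inr ⟨hx, max_eq_right_iff.1 e1, union_eq_right.1 e2⟩
  le_inf z x y := by
    rintro ⟨h1, h2, h3⟩ ⟨h4, h5, h6⟩
    refine ⟨max_le h1 h4, union_subset h2 h5, ?_⟩
    intro e1 e2
    rintro (⟨h, h', h''⟩ | ⟨h, h', h''⟩)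
    · refine h3 ?_ ?_ h
      · rw [e1]; exact max_eq_left h'
      · rw [e2]; exact union_eq_left.2 h''
    · refine h6 ?_ ?_ h
      · rw [e1]; exact max_eq_right h'
      · rw [e2]; exact union_eq_right.2 h''

lemma inf_d (x y : Pt Ω) : (x ⊓ y).d = max x.d y.d := rfl
lemma inf_A (x y : Pt Ω) : (x ⊓ y).A = x.A ∪ y.A := rfl
lemma inf_E (x y : Pt Ω) : (x ⊓ y).E ↔
  ((x.E ∧ y.d ≤ x.d ∧ y.A ⊆ x.A) ∨ (y.E ∧ x.d ≤ y.d ∧ x.A ⊆ y.A)) := Iff.rfl

/-- the twin point -/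
def e (d : Ω) : Pt Ω where
  d := d
  A := Iio d
  E := True
  hA := Subset.rfl
  hf := by simp
  ht := by simp
  h1 := by simp
  h0 := by simp

/-- the basic neighbourhoods (punctured) -/
def U (b : Ω) (p : Pt Ω) : Set (Pt Ω) :=
  {y | y.d < p.d ∧ y.A ∩ Ici p.d = p.A ∩ Ici p.d ∧ ∃ x, b < x ∧ x < p.d ∧ (x ≤ y.d ∨ x ∈ y.A)}

lemma mem_U {b : Ω} {p y : Pt Ω} : y ∈ U b p ↔
    y.d < p.d ∧ y.A ∩ Ici p.d = p.A ∩ Ici p.d ∧ ∃ x, b < x ∧ x < p.d ∧ (x ≤ y.d ∨ x ∈ y.A) :=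
  Iff.rfl

lemma U_mono {b c : Ω} (h : b ≤ c) (p : Pt Ω) : U c p ⊆ U b p := by
  rintro y ⟨h1, h2, x, h3, h4⟩
  exact ⟨h1, h2, x, h.trans_lt h3, h4⟩

/-- openness -/
def Op (O : Set (Pt Ω)) : Prop :=
  (∀ p ∈ O, ¬ p.E → p.d ≠ ⊥ → ∃ b < p.d, U b p ⊆ O) ∧
  (e ⊤ ∈ O → ∃ b < (⊤ : Ω), ∀ d, b ≤ d → d < ⊤ → e d ∈ O)

end

/-- Topology, for nontrivial `Ω`. -/
instance {Ω : Type} [LinearOrder Ω] [BoundedOrder Ω] [Nontrivial Ω] : TopologicalSpace (Pt Ω) where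
  IsOpen := Op
  isOpen_univ := ⟨fun p _ _ h => ⟨⊥, bot_lt_iff_ne_bot.2 h, subset_univ _⟩,
    fun _ => ⟨⊥, bot_lt_top, fun _ _ _ => mem_univ _⟩⟩
  isOpen_inter := by
    rintro O O' ⟨h1, h2⟩ ⟨h3, h4⟩
    refine ⟨?_, ?_⟩
    · rintro p ⟨hp, hp'⟩ hE hd
      obtain ⟨b, hb, hb'⟩ := h1 p hp hE hd
      obtain ⟨c, hc, hc'⟩ := h3 p hp' hE hd
      exact ⟨max b c, max_lt hb hc, subset_inter ((U_mono (le_max_left _ _) p).trans hb')
        ((U_mono (le_max_right _ _) p).trans hc')⟩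
    · rintro ⟨hp, hp'⟩
      obtain ⟨b, hb, hb'⟩ := h2 hp
      obtain ⟨c, hc, hc'⟩ := h4 hp'
      exact ⟨max b c, max_lt hb hc, fun d hd hd' =>
        ⟨hb' d ((le_max_left _ _).trans hd) hd', hc' d ((le_max_right _ _).trans hd) hd'⟩⟩
  isOpen_sUnion := by
    intro s hs
    refine ⟨?_, ?_⟩
    · rintro p ⟨O, hO, hp⟩ hE hd
      obtain ⟨b, hb, hb'⟩ := (hs O hO).1 p hp hE hd
      exact ⟨b, hb, hb'.trans (subset_sUnion_of_mem hO)⟩
    · rintro ⟨O, hO, hp⟩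
      obtain ⟨b, hb, hb'⟩ := (hs O hO).2 hp
      exact ⟨b, hb, fun d hd hd' => ⟨O, hO, hb' d hd hd'⟩⟩

section
variable {Ω : Type} [LinearOrder Ω] [BoundedOrder Ω] [Nontrivial Ω]

lemma isOpen_def {O : Set (Pt Ω)} : IsOpen O ↔ Op O := Iff.rfl

lemma eTop_le (x : Pt Ω) : e ⊤ ≤ x := by
  refine ⟨le_top, ?_, fun _ _ _ => trivial⟩
  intro z hz
  refine lt_top_iff_ne_top.2 ?_
  rintro rfl
  exact x.ht hz

lemma d_lt_top {x : Pt Ω} (hx : x ≠ e ⊤) : x.d < ⊤ := by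
  by_contra h
  have h' : x.d = ⊤ := top_le_iff.1 (not_lt.1 h)
  have hE : x.E := by
    by_contra hE
    exact h (x.h1 hE)
  apply hx
  refine Pt.ext h' ?_ ?_
  · rw [x.h0 hE, h']; rfl
  · exact propext ⟨fun _ => trivial, fun _ => hE⟩

lemma le_of_mem_U {b : Ω} {p y : Pt Ω} (h : y ∈ U b p) : p ≤ y := by
  obtain ⟨h1, h2, -⟩ := h
  refine ⟨h1.le, ?_, fun h => absurd h h1.ne'⟩
  intro z hz
  by_cases hz' : z < p.d
  · exact p.hA hz'
  · have : z ∈ y.A ∩ Ici p.d := ⟨hz, not_lt.1 hz'⟩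
    rw [h2] at this
    exact this.1

/-- Upper sets that miss the least element are open. -/
lemma isOpen_of_upper {O : Set (Pt Ω)} (h : IsUpperSet O) (h' : e ⊤ ∉ O) : IsOpen O := by
  refine ⟨?_, fun h'' => absurd h'' h'⟩
  intro p hp _ hd
  exact ⟨⊥, bot_lt_iff_ne_bot.2 hd, fun y hy => h (le_of_mem_U hy) hp⟩

lemma isOpen_Ici {x : Pt Ω} (hx : x ≠ e ⊤) : IsOpen (Ici x) :=
  isOpen_of_upper (isUpperSet_Ici x) (fun h => hx (le_antisymm h (eTop_le x)))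

/-- `N b p` -/
def N (b : Ω) (p : Pt Ω) : Set (Pt Ω) := insert p (U b p)

lemma le_of_mem_N {b : Ω} {p y : Pt Ω} (h : y ∈ N b p) : p ≤ y := by
  rcases h with rfl | h
  · exact le_rfl
  · exact le_of_mem_U h

lemma isOpen_N {b : Ω} {p : Pt Ω} (hp : ¬ p.E) (hb : b < p.d) : IsOpen (N b p) := by
  refine ⟨?_, ?_⟩
  · rintro y (rfl | hy) hE hd
    · exact ⟨b, hb, subset_insert _ _⟩
    obtain ⟨h1, h2, x, h3, h4, h5⟩ := hy
    by_cases hby : b < y.d
    · refine ⟨b, hby, ?_⟩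
      rintro z ⟨g1, g2, x', g3, g4, g5⟩
      refine Or.inr ⟨g1.trans h1, ?_, x', g3, g4.trans h1, g5⟩
      rw [← h2]
      have : z.A ∩ Ici y.d ∩ Ici p.d = y.A ∩ Ici y.d ∩ Ici p.d := by rw [g2]
      rwa [inter_assoc, inter_assoc, inter_eq_right.2 (Ici_subset_Ici.2 h1.le)] at this
    · refine ⟨⊥, bot_lt_iff_ne_bot.2 hd, ?_⟩
      rintro z ⟨g1, g2, x', g3, g4, g5⟩
      have hyx : y.d ≤ x := (not_lt.1 hby).trans h3.le
      refine Or.inr ⟨g1.trans h1, ?_, x, h3, h4, Or.inr ?_⟩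
      · rw [← h2]
        have : z.A ∩ Ici y.d ∩ Ici p.d = y.A ∩ Ici y.d ∩ Ici p.d := by rw [g2]
        rwa [inter_assoc, inter_assoc, inter_eq_right.2 (Ici_subset_Ici.2 h1.le)] at this
      · have hx : x ∈ y.A := by
          rcases h5 with h5 | h5
          · exact absurd (h3.trans_le h5) hby
          · exact h5
        have : x ∈ y.A ∩ Ici y.d := ⟨hx, hyx⟩
        rw [← g2] at this
        exact this.1
  · rintro (h | h)
    · exact absurd (h ▸ trivial) hp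
    · exact absurd h.1 (not_lt.2 le_top)

lemma isOpen_singleton_e {d : Ω} (hd : d < ⊤) : IsOpen {e d} := by
  refine ⟨?_, ?_⟩
  · rintro p rfl hE
    exact absurd trivial hE
  · intro h
    have : (e ⊤ : Pt Ω).d = (e d).d := by rw [mem_singleton_iff.1 h]
    exact absurd this hd.ne'

lemma isOpen_singleton_of_E {p : Pt Ω} (hp : p.E) (hd : p.d < ⊤) : IsOpen {p} := by
  refine ⟨?_, ?_⟩
  · rintro q rfl hE
    exact absurd hp hE
  · intro h
    have : (e ⊤ : Pt Ω).d = p.d := by rw [mem_singleton_iff.1 h]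
    exact absurd this hd.ne'

lemma isOpen_singleton_of_bot {p : Pt Ω} (hd : p.d = ⊥) : IsOpen {p} := by
  refine ⟨?_, ?_⟩
  · rintro q rfl hE hd'
    exact absurd hd hd'
  · intro h
    have : (e ⊤ : Pt Ω).d = p.d := by rw [mem_singleton_iff.1 h]
    rw [hd] at this
    exact absurd this bot_lt_top.ne'

/-- neighbourhoods of the least element -/
def W (b : Ω) : Set (Pt Ω) := {x | ∃ d, b ≤ d ∧ x = e d}

lemma isOpen_W {b : Ω} (hb : b < ⊤) : IsOpen (W b) := by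
  refine ⟨?_, ?_⟩
  · rintro p ⟨d, hd, rfl⟩ hE
    exact absurd trivial hE
  · intro _
    exact ⟨b, hb, fun d hd _ => ⟨d, hd, rfl⟩⟩

lemma e_le_e {c d : Ω} (h : c ≤ d) : e d ≤ e c :=
  ⟨h, Iio_subset_Iio h, fun _ _ _ => trivial⟩


/-! ### continuity -/

lemma inf_eq_of_U {x y v : Pt Ω} {b : Ω} (hv : v ∈ U b y) (h : y.d ≤ x.d) (hy : ¬ y.E) :
    x ⊓ v = x ⊓ y := by
  obtain ⟨h1, h2, -⟩ := hv
  have hA : x.A ∪ v.A = x.A ∪ y.A := by
    ext z
    by_cases hz : z < y.d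
    · have : z ∈ x.A := x.hA (hz.trans_le h)
      simp [this]
    · have h3 : z ∈ v.A ∩ Ici y.d ↔ z ∈ y.A ∩ Ici y.d := by rw [h2]
      have h4 : z ∈ v.A ↔ z ∈ y.A := by
        simpa [mem_inter_iff, not_lt.1 hz] using h3
      simp [h4]
  have hA' : v.A ⊆ x.A ↔ y.A ⊆ x.A := by
    rw [← union_eq_left, ← union_eq_left, hA]
  refine Pt.ext ?_ hA ?_
  · rw [inf_d, inf_d, max_eq_left h, max_eq_left (h1.le.trans h)]
  · refine propext ?_
    rw [inf_E, inf_E]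
    constructor
    · rintro (⟨h3, h4, h5⟩ | ⟨h3, h4, h5⟩)
      · exact Or.inl ⟨h3, h, hA'.1 h5⟩
      · exact absurd (h4.trans_lt h1) (not_lt.2 h)
    · rintro (⟨h3, h4, h5⟩ | ⟨h3, h4, h5⟩)
      · exact Or.inl ⟨h3, h1.le.trans h, hA'.2 h5⟩
      · exact absurd h3 hy

lemma inf_mem_U {x y u v : Pt Ω} {b : Ω} (hu : u ∈ U b x) (hv : v.d < x.d)
    (hA : v.A ∩ Ici x.d = y.A ∩ Ici x.d) (h : y.d ≤ x.d) : u ⊓ v ∈ U b (x ⊓ y) := by
  obtain ⟨h1, h2, w, h3, h4, h5⟩ := hu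
  have hd : (x ⊓ y).d = x.d := by rw [inf_d, max_eq_left h]
  refine ⟨?_, ?_, w, h3, ?_, ?_⟩
  · rw [hd, inf_d]
    exact max_lt h1 hv
  · rw [hd, inf_A, inf_A, union_inter_distrib_right, union_inter_distrib_right, h2, hA]
  · rw [hd]; exact h4
  · rcases h5 with h5 | h5
    · exact Or.inl (h5.trans (le_max_left _ _))
    · exact Or.inr (Or.inl h5)

/-- `Ω` is large: countably many elements below `⊤` are bounded strictly below `⊤`. -/
class Big (Ω : Type) [LinearOrder Ω] [BoundedOrder Ω] : Prop where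
  bdd : ∀ f : ℕ → Ω, (∀ n, f n < ⊤) → ∃ b, b < ⊤ ∧ ∀ n, f n < b

lemma exists_gt_lt_top [Big Ω] {a : Ω} (ha : a < ⊤) : ∃ b, b < ⊤ ∧ a < b := by
  obtain ⟨b, hb, hb'⟩ := Big.bdd (fun _ : ℕ => a) (fun _ => ha)
  exact ⟨b, hb, hb' 0⟩

lemma fin_bdd {s : Set Ω} (hs : s.Finite) {c : Ω} (hc : ⊥ < c) (h : ∀ x ∈ s, x < c) :
    ∃ b < c, ∀ x ∈ s, x ≤ b := by
  induction s, hs using Set.Finite.induction_on with
  | empty => exact ⟨⊥, hc, by simp⟩
  | @insert a s _ _ ih =>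
    obtain ⟨b, hb, hb'⟩ := ih (fun x hx => h x (mem_insert_of_mem _ hx))
    refine ⟨max a b, max_lt (h a (mem_insert _ _)) hb, ?_⟩
    rintro x (rfl | hx)
    · exact le_max_left _ _
    · exact (hb' x hx).trans (le_max_right _ _)

lemma exists_e_le [Big Ω] {x : Pt Ω} (hx : x ≠ e ⊤) :
    ∃ b, b < ⊤ ∧ x.d < b ∧ x.A ⊆ Iio b ∧ e b ≤ x := by
  obtain ⟨b, hb, hb'⟩ := fin_bdd (x.hf.insert x.d) (c := ⊤) bot_lt_top (by
    rintro z (rfl | hz)
    · exact d_lt_top hx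
    · refine lt_top_iff_ne_top.2 ?_
      rintro rfl
      exact x.ht hz.1)
  obtain ⟨c, hc, hc'⟩ := exists_gt_lt_top hb
  have h1 : x.d < c := (hb' _ (mem_insert _ _)).trans_lt hc'
  have h2 : x.A ⊆ Iio c := by
    intro z hz
    by_cases hz' : z < x.d
    · exact hz'.trans h1
    · exact (hb' z (mem_insert_of_mem _ ⟨hz, hz'⟩)).trans_lt hc'
  exact ⟨c, hc, h1, h2, h1.le, h2, fun _ _ _ => trivial⟩

/-- a small neighbourhood of a point which is not the least element -/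
lemma exists_nbhd {y : Pt Ω} (hy : y ≠ e ⊤) :
    ∃ V : Set (Pt Ω), IsOpen V ∧ y ∈ V ∧
      ∀ v ∈ V, v = y ∨ (¬ y.E ∧ ∃ b, v ∈ U b y) := by
  by_cases hE : y.E
  · exact ⟨{y}, isOpen_singleton_of_E hE (d_lt_top hy), rfl, fun v hv => Or.inl hv⟩
  by_cases hd : y.d = ⊥
  · exact ⟨{y}, isOpen_singleton_of_bot hd, rfl, fun v hv => Or.inl hv⟩
  refine ⟨N ⊥ y, isOpen_N hE (bot_lt_iff_ne_bot.2 hd), mem_insert _ _, ?_⟩
  rintro v (rfl | hv)
  · exact Or.inl rfl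
  · exact Or.inr ⟨hE, ⊥, hv⟩

lemma cont_aux [Big Ω] {x y : Pt Ω} (hxy : y.d ≤ x.d) {O : Set (Pt Ω)} (hO : IsOpen O)
    (h : x ⊓ y ∈ O) : ∃ V V' : Set (Pt Ω), IsOpen V ∧ IsOpen V' ∧ x ∈ V ∧ y ∈ V' ∧
      ∀ u ∈ V, ∀ v ∈ V', u ⊓ v ∈ O := by
  by_cases hx : x = e ⊤
  · subst hx
    have h0 : e ⊤ ⊓ y = e ⊤ := inf_eq_left.2 (eTop_le y)
    rw [h0] at h
    obtain ⟨b, hb, hb'⟩ := hO.2 h
    have hb'' : ∀ d, b ≤ d → e d ∈ O := by
      intro d hd
      rcases eq_or_ne d ⊤ with rfl | hd'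
      · exact h
      · exact hb' d hd (lt_top_iff_ne_top.2 hd')
    by_cases hy : y = e ⊤
    · subst hy
      refine ⟨W b, W b, isOpen_W hb, isOpen_W hb, ⟨⊤, le_top, rfl⟩, ⟨⊤, le_top, rfl⟩, ?_⟩
      rintro u ⟨d, hd, rfl⟩ v ⟨d', hd', rfl⟩
      rcases le_total d d' with h1 | h1
      · rw [inf_eq_right.2 (e_le_e h1)]; exact hb'' _ hd'
      · rw [inf_eq_left.2 (e_le_e h1)]; exact hb'' _ hd
    · obtain ⟨c, hc, -, -, hc'⟩ := exists_e_le hy
      refine ⟨W (max b c), Ici y, isOpen_W (max_lt hb hc), isOpen_Ici hy, ⟨⊤, le_top, rfl⟩,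
        le_refl y, ?_⟩
      rintro u ⟨d, hd, rfl⟩ v hv
      have h1 : e d ≤ v := ((e_le_e ((le_max_right _ _).trans hd)).trans hc').trans hv
      rw [inf_eq_left.2 h1]
      exact hb'' d ((le_max_left _ _).trans hd)
  have hxd := d_lt_top hx
  have hy : y ≠ e ⊤ := by
    rintro rfl
    exact absurd hxd (not_lt.2 hxy)
  obtain ⟨V', hV', hyV', hVy⟩ := exists_nbhd hy
  by_cases hE : x.E
  · refine ⟨{x}, V', isOpen_singleton_of_E hE hxd, hV', rfl, hyV', ?_⟩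
    rintro u rfl v hv
    rcases hVy v hv with rfl | ⟨hyE, b, hb⟩
    · exact h
    · rw [inf_eq_of_U hb hxy hyE]; exact h
  by_cases hd : x.d = ⊥
  · have hyd : y.d = ⊥ := by rw [hd] at hxy; exact le_bot_iff.1 hxy
    refine ⟨{x}, {y}, isOpen_singleton_of_bot hd, isOpen_singleton_of_bot hyd, rfl, rfl, ?_⟩
    rintro u rfl v rfl
    exact h
  by_cases hI : (x ⊓ y).E
  · rw [inf_E] at hI
    rcases hI with hI | hI
    · exact absurd hI.1 hE
    · obtain ⟨h1, h2, h3⟩ := hI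
      have hyx : y ≤ x := ⟨h2, h3, fun _ _ _ => h1⟩
      refine ⟨Ici x, {y}, isOpen_Ici hx, isOpen_singleton_of_E h1 (d_lt_top hy), le_refl x, rfl, ?_⟩
      rintro u hu v rfl
      rw [inf_eq_right.2 hyx] at h
      rw [inf_eq_right.2 (hyx.trans hu)]
      exact h
  have hId : (x ⊓ y).d = x.d := by rw [inf_d, max_eq_left hxy]
  obtain ⟨b, hb, hb'⟩ := hO.1 _ h hI (by rw [hId]; exact hd)
  rw [hId] at hb
  refine ⟨N b x, V', isOpen_N hE hb, hV', mem_insert _ _, hyV', ?_⟩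
  rintro u hu v hv
  rcases hu with rfl | hu
  · rcases hVy v hv with rfl | ⟨hyE, b, hb⟩
    · exact h
    · rw [inf_eq_of_U hb hxy hyE]; exact h
  · rcases hVy v hv with rfl | ⟨hyE, c, hc⟩
    · rcases hxy.lt_or_eq with h1 | h1
      · exact hb' (inf_mem_U hu h1 rfl hxy)
      · have := inf_eq_of_U (x := v) hu h1.ge hE
        rw [inf_comm, this, inf_comm]
        exact h
    · apply hb'
      refine inf_mem_U hu (hc.1.trans_le hxy) ?_ hxy
      have : v.A ∩ Ici y.d ∩ Ici x.d = y.A ∩ Ici y.d ∩ Ici x.d := by rw [hc.2.1]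
      rwa [inter_assoc, inter_assoc, inter_eq_right.2 (Ici_subset_Ici.2 hxy)] at this

instance [Big Ω] : ContinuousInf (Pt Ω) := by
  refine ⟨continuous_def.2 fun O hO => isOpen_prod_iff.2 ?_⟩
  intro x y hxy
  rcases le_total y.d x.d with h | h
  · obtain ⟨V, V', h1, h2, h3, h4, h5⟩ := cont_aux h hO hxy
    exact ⟨V, V', h1, h2, h3, h4, fun p hp => h5 _ hp.1 _ hp.2⟩
  · have hxy' : y ⊓ x ∈ O := by rw [inf_comm]; exact hxy
    obtain ⟨V, V', h1, h2, h3, h4, h5⟩ := cont_aux h hO hxy'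
    refine ⟨V', V, h2, h1, h4, h3, fun p hp => ?_⟩
    have := h5 _ hp.2 _ hp.1
    rw [inf_comm] at this
    exact this

/-! ### Hausdorff -/

lemma sep_aux [Big Ω] {x y : Pt Ω} (hxy : y.d ≤ x.d) (hne : x ≠ y) :
    ∃ V V' : Set (Pt Ω), IsOpen V ∧ IsOpen V' ∧ x ∈ V ∧ y ∈ V' ∧ Disjoint V V' := by
  by_cases hx : x = e ⊤
  · subst hx
    obtain ⟨b, hb, hyb, -, -⟩ := exists_e_le hne.symm
    refine ⟨W b, Ici y, isOpen_W hb, isOpen_Ici hne.symm, ⟨⊤, le_top, rfl⟩, le_refl y, ?_⟩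
    refine Set.disjoint_left.2 ?_
    rintro z ⟨d, hd, rfl⟩ hz
    exact absurd (hd.trans hz.1) (not_le.2 hyb)
  have hxd := d_lt_top hx
  have hy : y ≠ e ⊤ := by
    rintro rfl
    exact absurd hxd (not_lt.2 hxy)
  obtain ⟨V', hV', hyV', hVy⟩ := exists_nbhd hy
  by_cases hE : x.E
  · refine ⟨{x}, V', isOpen_singleton_of_E hE hxd, hV', rfl, hyV', ?_⟩
    refine Set.disjoint_left.2 ?_
    rintro u rfl hv
    rcases hVy u hv with h | ⟨hyE, b, hb⟩
    · exact hne h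
    · exact absurd (hb.1.trans_le hxy) (lt_irrefl _)
  by_cases hd : x.d = ⊥
  · have hyd : y.d = ⊥ := by rw [hd] at hxy; exact le_bot_iff.1 hxy
    refine ⟨{x}, {y}, isOpen_singleton_of_bot hd, isOpen_singleton_of_bot hyd, rfl, rfl, ?_⟩
    exact Set.disjoint_singleton.2 hne
  rcases hxy.lt_or_eq with h1 | h1
  · obtain ⟨b, hb, hb'⟩ := fin_bdd ((y.hf.inter_of_left (Iio x.d)).insert y.d) (c := x.d)
      (bot_lt_iff_ne_bot.2 hd) (by
        rintro z (rfl | hz)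
        · exact h1
        · exact hz.2)
    refine ⟨N b x, Ici y, isOpen_N hE hb, isOpen_Ici hy, mem_insert _ _, le_refl y, ?_⟩
    refine Set.disjoint_left.2 ?_
    rintro z (rfl | hz) hz'
    · exact absurd hz'.1 (not_le.2 h1)
    · obtain ⟨-, -, w, h3, h4, h5⟩ := hz
      rcases h5 with h5 | h5
      · exact absurd (h3.trans_le ((h5.trans hz'.1).trans (hb' _ (mem_insert _ _)))) (lt_irrefl _)
      · have h6 : w ∈ y.A := hz'.2.1 h5
        by_cases h7 : w < y.d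
        · exact absurd (h3.trans_le (h7.le.trans (hb' _ (mem_insert _ _)))) (lt_irrefl _)
        · exact absurd (h3.trans_le (hb' w (mem_insert_of_mem _ ⟨⟨h6, h7⟩, h4⟩))) (lt_irrefl _)
  · refine ⟨N ⊥ x, V', isOpen_N hE (bot_lt_iff_ne_bot.2 hd), hV', mem_insert _ _, hyV', ?_⟩
    refine Set.disjoint_left.2 ?_
    rintro z hz hz'
    rcases hVy z hz' with rfl | ⟨hyE, b, hb⟩
    · rcases hz with hz | hz
      · exact hne hz.symm
      · exact absurd hz.1 h1.not_lt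
    · rcases hz with rfl | hz
      · exact absurd hb.1 h1.le.not_gt
      · apply hne
        have h2 := hz.2.1
        have h3 := hb.2.1
        rw [h1, h2] at h3
        refine Pt.ext h1.symm ?_ (propext ⟨fun h => absurd h hE, fun h => absurd h hyE⟩)
        ext w
        by_cases hw : w < x.d
        · exact ⟨fun _ => y.hA (h1 ▸ hw), fun _ => x.hA hw⟩
        · have h4 : w ∈ x.A ∩ Ici x.d ↔ w ∈ y.A ∩ Ici x.d := by rw [h3]
          simpa [mem_inter_iff, not_lt.1 hw] using h4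

instance [Big Ω] : T2Space (Pt Ω) := by
  refine ⟨fun x y hxy => ?_⟩
  rcases le_total y.d x.d with h | h
  · exact sep_aux h hxy
  · obtain ⟨V, V', h1, h2, h3, h4, h5⟩ := sep_aux h hxy.symm
    exact ⟨V', V, h2, h1, h4, h3, h5.symm⟩


/-! ### chains have maxima -/

open Classical in
/-- a rank -/
noncomputable def rk (x : Pt Ω) : Ω ×ₗ (ℕ ×ₗ ℕ) :=
  toLex (x.d, toLex ((x.A \ Iio x.d).ncard, if x.E then 1 else 0))

lemma rk_lt {x y : Pt Ω} (h : x < y) : rk y < rk x := by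
  have h' := h.le
  have hne := h.ne
  obtain ⟨h1, h2, h3⟩ := h'
  unfold rk
  rw [Prod.Lex.toLex_lt_toLex]
  rcases h1.lt_or_eq with h1 | h1
  · exact Or.inl h1
  refine Or.inr ⟨h1, ?_⟩
  simp only
  rw [Prod.Lex.toLex_lt_toLex]
  by_cases hA : x.A = y.A
  · refine Or.inr ⟨by rw [hA, h1], ?_⟩
    have h4 := h3 h1.symm hA
    have hx : x.E := by
      by_contra hx
      exact hne (Pt.ext h1.symm hA (propext ⟨fun h => absurd h hx, h4⟩))
    have hy : ¬ y.E := by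
      intro hy
      exact hne (Pt.ext h1.symm hA (propext ⟨fun _ => hy, fun _ => hx⟩))
    simp [hx, hy]
  · left
    simp only
    refine Set.ncard_lt_ncard ?_ x.hf
    rw [h1]
    refine ⟨sdiff_subset_sdiff_left h2, ?_⟩
    intro h4
    apply hA
    refine Subset.antisymm ?_ h2
    intro z hz
    by_cases hz' : z < x.d
    · exact y.hA (h1 ▸ hz')
    · exact (h4 ⟨hz, hz'⟩).1

lemma exists_max [WellFoundedLT Ω] {C : Set (Pt Ω)} (hC : IsChain (· ≤ ·) C)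
    (hne : C.Nonempty) : ∃ m ∈ C, ∀ c ∈ C, c ≤ m := by
  obtain ⟨_, ⟨m, hm, rfl⟩, h⟩ := (wellFounded_lt (α := Ω ×ₗ (ℕ ×ₗ ℕ))).has_min (rk '' C)
    (hne.image _)
  refine ⟨m, hm, fun c hc => ?_⟩
  rcases hC.total hc hm with h1 | h1
  · exact h1
  · rcases h1.lt_or_eq with h2 | h2
    · exact absurd (rk_lt h2) (h _ ⟨c, hc, rfl⟩)
    · exact h2.ge

/-! ### infima in maximal chains -/

lemma mem_of_comparable {L : Set (Pt Ω)} (hL : IsMaxChain (· ≤ ·) L) {m : Pt Ω}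
    (h : ∀ l ∈ L, m ≤ l ∨ l ≤ m) : m ∈ L := by
  have h1 : IsChain (· ≤ ·) (insert m L) := hL.1.insert (fun b hb _ => h b hb)
  rw [hL.2 h1 (subset_insert _ _)]
  exact mem_insert _ _

lemma exists_cover {S : Set (Pt Ω)} (hS : IsChain (· ≤ ·) S) (hne : S.Nonempty) {F : Set Ω}
    (hF : F.Finite) (h : F ⊆ ⋃ s ∈ S, s.A) : ∃ s ∈ S, F ⊆ s.A := by
  induction F, hF using Set.Finite.induction_on with
  | empty => obtain ⟨s, hs⟩ := hne; exact ⟨s, hs, empty_subset _⟩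
  | @insert a F _ _ ih =>
    obtain ⟨s, hs, hs'⟩ := ih ((subset_insert _ _).trans h)
    obtain ⟨t, ht, ht'⟩ := mem_iUnion₂.1 (h (mem_insert _ _))
    rcases hS.total hs ht with h1 | h1
    · exact ⟨s, hs, insert_subset (h1.2.1 ht') hs'⟩
    · exact ⟨t, ht, insert_subset ht' (hs'.trans h1.2.1)⟩

/-- the bounded case -/
lemma inf_bdd [WellFoundedLT Ω] {L : Set (Pt Ω)} (hL : IsMaxChain (· ≤ ·) L)
    {S : Set (Pt Ω)} (hSL : S ⊆ L) (hne : S.Nonempty) (hmin : ∀ s ∈ S, ∃ t ∈ S, t < s)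
    (hex : ∃ δ : Ω, δ < ⊤ ∧ (∀ s ∈ S, s.d ≤ δ) ∧ ((⋃ s ∈ S, s.A) \ Iio δ).Finite) :
    ∃ m ∈ L, (∀ s ∈ S, m ≤ s) ∧ (∀ b ∈ L, (∀ s ∈ S, b ≤ s) → b ≤ m) ∧
      m ∈ closure {x | x ∈ L ∧ ∃ s ∈ S, s ≤ x} := by
  have hS : IsChain (· ≤ ·) S := hL.1.mono hSL
  set a : Set Ω := ⋃ s ∈ S, s.A with ha
  have hsa : ∀ s ∈ S, s.A ⊆ a := fun s hs => subset_biUnion_of_mem (u := fun s : Pt Ω => s.A) hs
  obtain ⟨δ, ⟨hδ1, hδ2, hδ3⟩, hδm⟩ := (wellFounded_lt (α := Ω)).has_min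
    {δ : Ω | δ < ⊤ ∧ (∀ s ∈ S, s.d ≤ δ) ∧ (a \ Iio δ).Finite} hex
  have hta : ⊤ ∉ a := by
    intro h
    obtain ⟨t, ht, ht'⟩ := mem_iUnion₂.1 h
    exact t.ht ht'
  let m : Pt Ω :=
    { d := δ
      A := a ∪ Iio δ
      E := False
      hA := subset_union_right
      hf := by rw [union_sdiff_right]; exact hδ3
      ht := by
        rintro (h | h)
        · exact hta h
        · exact absurd h (not_lt.2 le_top)
      h1 := fun _ => hδ1
      h0 := fun h => h.elim }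
  have hmd : m.d = δ := rfl
  have hmA : m.A = a ∪ Iio δ := rfl
  have hmE : ¬ m.E := fun h => h
  -- strictness
  have hq : ∀ s ∈ S, ¬ (s.d = δ ∧ s.A = m.A) := by
    rintro s hs ⟨h1, h2⟩
    obtain ⟨t, ht, hts⟩ := hmin s hs
    have htd : t.d = δ := le_antisymm (hδ2 t ht) (h1 ▸ hts.le.1)
    have htA : t.A = m.A := by
      refine Subset.antisymm ((hsa t ht).trans subset_union_left) ?_
      rw [← h2]; exact hts.le.2.1
    obtain ⟨r, hr, hrt⟩ := hmin t ht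
    have hrd : r.d = δ := le_antisymm (hδ2 r hr) (htd ▸ hrt.le.1)
    have hrA : r.A = m.A := by
      refine Subset.antisymm ((hsa r hr).trans subset_union_left) ?_
      rw [← htA]; exact hrt.le.2.1
    have k1 : ∀ {x y : Pt Ω}, x < y → x.d = y.d → x.A = y.A → x.E ∧ ¬ y.E := by
      intro x y hxy e1 e2
      have h3 := hxy.le.2.2 e1 e2
      have hx : x.E := by
        by_contra hx
        exact hxy.ne (Pt.ext e1 e2 (propext ⟨fun h => absurd h hx, h3⟩))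
      refine ⟨hx, fun hy => hxy.ne (Pt.ext e1 e2 (propext ⟨fun _ => hy, fun _ => hx⟩))⟩
    exact (k1 hrt (hrd.trans htd.symm) (hrA.trans htA.symm)).2
      (k1 hts (htd.trans h1.symm) (htA.trans h2.symm)).1
  have hle : ∀ s ∈ S, m ≤ s := by
    intro s hs
    refine ⟨hδ2 s hs, (hsa s hs).trans subset_union_left, ?_⟩
    intro e1 e2
    exact absurd ⟨e1.symm, e2.symm⟩ (hq s hs)
  have hub : ∀ l : Pt Ω, (∀ s ∈ S, l ≤ s) → l ≤ m := by
    intro l hl
    have h1 : a ⊆ l.A := iUnion₂_subset fun s hs => (hl s hs).2.1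
    have h2 : δ ≤ l.d := by
      rcases (le_top : l.d ≤ ⊤).lt_or_eq with h3 | h3
      · refine not_lt.1 (fun h4 => hδm l.d ⟨h3, fun s hs => (hl s hs).1, ?_⟩ h4)
        exact l.hf.subset (sdiff_subset_sdiff_left h1)
      · rw [h3]; exact le_top
    refine ⟨h2, union_subset h1 ((Iio_subset_Iio h2).trans l.hA), ?_⟩
    intro _ _ h
    exact absurd h hmE
  have hmL : m ∈ L := by
    apply mem_of_comparable hL
    intro l hl
    by_cases h : ∃ s ∈ S, s ≤ l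
    · obtain ⟨s, hs, hsl⟩ := h
      exact Or.inl ((hle s hs).trans hsl)
    · push Not at h
      refine Or.inr (hub l fun s hs => ?_)
      rcases hL.1.total hl (hSL hs) with h1 | h1
      · exact h1
      · exact absurd h1 (h s hs)
  refine ⟨m, hmL, hle, fun b _ => hub b, ?_⟩
  -- closure
  obtain ⟨s0, hs0, hs0'⟩ := exists_cover hS hne (F := a \ Iio δ) hδ3 sdiff_subset
  have hlow : ∀ s ∈ S, s ≤ s0 → s.A ∩ Ici δ = m.A ∩ Ici δ := by
    intro s hs hss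
    refine Subset.antisymm (inter_subset_inter_left _ ((hsa s hs).trans subset_union_left)) ?_
    rintro z ⟨hz1, hz2⟩
    refine ⟨hss.2.1 (hs0' ⟨?_, not_lt.2 hz2⟩), hz2⟩
    rcases hz1 with h | h
    · exact h
    · exact absurd h (not_lt.2 hz2)
  have hlt : ∀ s ∈ S, s.d < δ := by
    intro s hs
    refine (hδ2 s hs).lt_of_ne ?_
    intro h
    obtain ⟨t, ht, hts, hts0⟩ : ∃ t ∈ S, t ≤ s ∧ t ≤ s0 := by
      rcases hS.total hs hs0 with h1 | h1
      · exact ⟨s, hs, le_rfl, h1⟩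
      · exact ⟨s0, hs0, h1, le_rfl⟩
    have h1 : t.d = δ := le_antisymm (hδ2 t ht) (h ▸ hts.1)
    refine hq t ht ⟨h1, ?_⟩
    have h2 := hlow t ht hts0
    ext w
    by_cases hw : w < δ
    · exact ⟨fun _ => Or.inr hw, fun _ => t.hA (h1 ▸ hw)⟩
    · have h4 : w ∈ t.A ∩ Ici δ ↔ w ∈ m.A ∩ Ici δ := by rw [h2]
      simpa [mem_inter_iff, not_lt.1 hw] using h4
  have hδ0 : δ ≠ ⊥ := by
    rintro h
    exact absurd (hlt s0 hs0) (h ▸ not_lt_bot)
  rw [mem_closure_iff]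
  intro O hO hmO
  obtain ⟨b, hb, hb'⟩ := hO.1 m hmO hmE hδ0
  by_contra hcon
  have hnone : ∀ s ∈ S, s ≤ s0 → ¬ ∃ x, b < x ∧ x < δ ∧ (x ≤ s.d ∨ x ∈ s.A) := by
    rintro s hs hss ⟨x, hx1, hx2, hx3⟩
    apply hcon
    exact ⟨s, hb' ⟨hlt s hs, hlow s hs hss, x, hx1, hx2, hx3⟩, hSL hs, s, hs, le_rfl⟩
  have hb1 : b < δ := hb
  refine hδm b ⟨hb1.trans hδ1, ?_, ?_⟩ hb1
  · intro s hs
    obtain ⟨t, ht, hts, hts0⟩ : ∃ t ∈ S, t ≤ s ∧ t ≤ s0 := by
      rcases hS.total hs hs0 with h1 | h1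
      · exact ⟨s, hs, le_rfl, h1⟩
      · exact ⟨s0, hs0, h1, le_rfl⟩
    refine hts.1.trans (not_lt.1 fun h => ?_)
    exact hnone t ht hts0 ⟨t.d, h, hlt t ht, Or.inl le_rfl⟩
  · refine ((finite_singleton b).union hδ3).subset ?_
    rintro z ⟨hz, hz'⟩
    have hz'' : b ≤ z := not_lt.1 hz'
    rcases hz''.eq_or_lt with h | h
    · exact Or.inl h.symm
    right
    refine ⟨hz, fun hzδ => ?_⟩
    obtain ⟨s, hs, hzs⟩ := mem_iUnion₂.1 hz
    obtain ⟨t, ht, hts, hts0⟩ : ∃ t ∈ S, t ≤ s ∧ t ≤ s0 := by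
      rcases hS.total hs hs0 with h1 | h1
      · exact ⟨s, hs, le_rfl, h1⟩
      · exact ⟨s0, hs0, h1, le_rfl⟩
    exact hnone t ht hts0 ⟨z, h, hzδ, Or.inr (hts.2.1 hzs)⟩

/-- the unbounded case -/
lemma inf_unbdd [WellFoundedLT Ω] [Big Ω] {L : Set (Pt Ω)} (hL : IsMaxChain (· ≤ ·) L)
    {S : Set (Pt Ω)} (hSL : S ⊆ L) (hne : S.Nonempty) (hmin : ∀ s ∈ S, ∃ t ∈ S, t < s)
    (hex : ¬ ∃ δ : Ω, δ < ⊤ ∧ (∀ s ∈ S, s.d ≤ δ) ∧ ((⋃ s ∈ S, s.A) \ Iio δ).Finite) :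
    ∃ m ∈ L, (∀ s ∈ S, m ≤ s) ∧ (∀ b ∈ L, (∀ s ∈ S, b ≤ s) → b ≤ m) ∧
      m ∈ closure {x | x ∈ L ∧ ∃ s ∈ S, s ≤ x} := by
  have hS : IsChain (· ≤ ·) S := hL.1.mono hSL
  set a : Set Ω := ⋃ s ∈ S, s.A with ha
  have hsa : ∀ s ∈ S, s.A ⊆ a := fun s hs => subset_biUnion_of_mem (u := fun s : Pt Ω => s.A) hs
  have hSne : ∀ s ∈ S, s ≠ e ⊤ := by
    rintro s hs rfl
    obtain ⟨t, _, ht⟩ := hmin _ hs
    exact absurd (eTop_le t) ht.not_ge
  -- `a` is unbounded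
  have hunb : ∀ c : Ω, c < ⊤ → ∃ s ∈ S, ∃ x ∈ s.A, c ≤ x := by
    intro c hc
    by_contra hcon
    push Not at hcon
    apply hex
    refine ⟨c, hc, fun s hs => ?_, ?_⟩
    · by_contra h
      exact absurd (hcon s hs c (s.hA (not_le.1 h))) (lt_irrefl _)
    · have : a \ Iio c = ∅ := by
        refine sdiff_eq_empty.2 (iUnion₂_subset fun s hs x hx => hcon s hs x hx)
      rw [this]; exact finite_empty
  refine ⟨e ⊤, mem_of_comparable hL fun l _ => Or.inl (eTop_le l), fun s _ => eTop_le s, ?_, ?_⟩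
  · intro b _ hb
    by_contra hbm
    have hb' : b ≠ e ⊤ := by rintro rfl; exact hbm le_rfl
    apply hex
    refine ⟨b.d, d_lt_top hb', fun s hs => (hb s hs).1, b.hf.subset (sdiff_subset_sdiff_left ?_)⟩
    exact iUnion₂_subset fun s hs => (hb s hs).2.1
  · rw [mem_closure_iff]
    intro O hO hmO
    obtain ⟨b, hb, hb'⟩ := hO.2 hmO
    -- next step
    have step : ∀ c : {c : Ω // c < ⊤}, ∃ r : Pt Ω × {c : Ω // c < ⊤}, r.1 ∈ S ∧
        (∃ x ∈ r.1.A, c.1 ≤ x) ∧ r.1.A ⊆ Iio r.2.1 ∧ c.1 < r.2.1 := by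
      rintro ⟨c, hc⟩
      obtain ⟨s, hs, x, hx, hcx⟩ := hunb c hc
      obtain ⟨g, hg, -, hg2, -⟩ := exists_e_le (hSne s hs)
      exact ⟨⟨s, ⟨g, hg⟩⟩, hs, ⟨x, hx, hcx⟩, hg2, hcx.trans_lt (hg2 hx)⟩
    choose F hF1 hF2 hF3 hF4 using step
    let c : ℕ → {c : Ω // c < ⊤} := fun n => Nat.rec ⟨b, hb⟩ (fun _ y => (F y).2) n
    have hc0 : c 0 = ⟨b, hb⟩ := rfl
    have hcs : ∀ n, c (n + 1) = (F (c n)).2 := fun n => rfl
    obtain ⟨g, hg, hg'⟩ := Big.bdd (fun n => (c n).1) (fun n => (c n).2)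
    obtain ⟨η, hη1, hη2⟩ := (wellFounded_lt (α := Ω)).has_min {z : Ω | ∀ n, (c n).1 ≤ z}
      ⟨g, fun n => (hg' n).le⟩
    have hmono : StrictMono fun n => (c n).1 := by
      refine strictMono_nat_of_lt_succ fun n => ?_
      simp only [hcs]
      exact hF4 (c n)
    have hηg : η ≤ g := not_lt.1 (hη2 g fun n => (hg' n).le)
    have hlt : ∀ n, (c n).1 < η := fun n => (hmono (Nat.lt_succ_self n)).trans_le (hη1 (n + 1))
    have hbelow : ∀ z, z < η → ∃ n, z < (c n).1 := by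
      intro z hz
      by_contra hcon
      push Not at hcon
      exact hη2 z hcon hz
    have hηL : e η ∈ L := by
      apply mem_of_comparable hL
      intro l hl
      by_cases hld : η ≤ l.d
      · by_cases heq : l.d = η ∧ l.A = Iio η
        · exact Or.inl ⟨heq.1.le, heq.2.subset, fun _ _ _ => trivial⟩
        · right
          exact ⟨hld, (Iio_subset_Iio hld).trans l.hA, fun e1 e2 _ => absurd ⟨e1, e2⟩ heq⟩
      · left
        have hld' := not_le.1 hld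
        obtain ⟨n, hn⟩ := hbelow _ hld'
        -- some `s_k ≤ l`
        have hk : ∃ k, (F (c k)).1 ≤ l := by
          by_contra hcon
          push Not at hcon
          have h1 : ∀ k, (F (c k)).1.A ⊆ l.A := by
            intro k
            rcases hL.1.total hl (hSL (hF1 (c k))) with h2 | h2
            · exact h2.2.1
            · exact absurd h2 (hcon k)
          choose x hx1 hx2 using fun k => hF2 (c (n + k))
          have hx3 : ∀ k, x k < (c (n + k + 1)).1 := fun k => by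
            rw [hcs]; exact hF3 (c (n + k)) (hx1 k)
          have hxm : StrictMono x := by
            refine strictMono_nat_of_lt_succ fun k => ?_
            exact (hx3 k).trans_le (hx2 (k + 1))
          have hinf : (range x).Infinite := Set.infinite_range_of_injective hxm.injective
          apply hinf
          refine l.hf.subset ?_
          rintro _ ⟨k, rfl⟩
          refine ⟨h1 _ (hx1 k), ?_⟩
          simp only [mem_Iio, not_lt]
          exact (hn.le.trans (hmono.monotone (Nat.le_add_right n k))).trans (hx2 k)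
        obtain ⟨k, hk⟩ := hk
        refine ⟨hld'.le, ?_, fun _ _ _ => trivial⟩
        exact (hk.2.1.trans (hF3 (c k))).trans (Iio_subset_Iio ((hcs k) ▸ (hlt (k + 1)).le))
    have hηS : ∃ s ∈ S, s ≤ e η := by
      by_contra hcon
      push Not at hcon
      obtain ⟨s, hs, x, hx, hηx⟩ := hunb η (hηg.trans_lt hg)
      rcases hL.1.total (hSL hs) hηL with h1 | h1
      · exact hcon s hs h1
      · exact absurd (h1.2.1 hx) (not_lt.2 hηx)
    exact ⟨e η, hb' η (hη1 0) (hηg.trans_lt hg), hηL, hηS⟩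


theorem sComplete_of_isMaxChain [WellFoundedLT Ω] [Big Ω] {L : Set (Pt Ω)}
    (hL : IsMaxChain (· ≤ ·) L) : SComplete L := by
  refine ⟨?_, ?_⟩
  · intro S hSL hne _
    by_cases hmin : ∃ s ∈ S, ∀ t ∈ S, s ≤ t
    · obtain ⟨m, hm, hm'⟩ := hmin
      exact ⟨m, hSL hm, hm', fun b _ hb => hb m hm, subset_closure ⟨hSL hm, m, hm, le_rfl⟩⟩
    have hmin' : ∀ s ∈ S, ∃ t ∈ S, t < s := by
      intro s hs
      push Not at hmin
      obtain ⟨t, ht, hst⟩ := hmin s hs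
      rcases hL.1.total (hSL hs) (hSL ht) with h | h
      · exact absurd h hst
      · exact ⟨t, ht, lt_of_le_not_ge h hst⟩
    by_cases hex : ∃ δ : Ω, δ < ⊤ ∧ (∀ s ∈ S, s.d ≤ δ) ∧ ((⋃ s ∈ S, s.A) \ Iio δ).Finite
    · exact inf_bdd hL hSL hne hmin' hex
    · exact inf_unbdd hL hSL hne hmin' hex
  · intro C hCL hne hC
    obtain ⟨m, hm, hm'⟩ := exists_max hC hne
    exact ⟨m, hCL hm, hm', fun b _ hb => hb m hm, subset_closure ⟨hCL hm, m, hm, le_rfl⟩⟩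

/-- the finite sets -/
def fs (F : Set Ω) (hF : F.Finite) (ht : ⊤ ∉ F) : Pt Ω where
  d := ⊥
  A := F
  E := False
  hA := by simp
  hf := hF.subset sdiff_subset
  ht := ht
  h1 := fun _ => bot_lt_top
  h0 := fun h => h.elim

theorem not_sComplete_univ [Big Ω] : ¬ SComplete (univ : Set (Pt Ω)) := by
  rintro ⟨h, -⟩
  obtain ⟨m, -, hm, -, hmc⟩ := h {x : Pt Ω | x.d = ⊥ ∧ ¬ x.E} (subset_univ _)
    ⟨fs ∅ finite_empty (by simp), rfl, fun h => h⟩ (by
      rintro x ⟨hx, hx'⟩ y ⟨hy, hy'⟩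
      refine ⟨by rw [inf_d, hx, hy, max_self], ?_⟩
      rw [inf_E]
      rintro (h | h)
      · exact hx' h.1
      · exact hy' h.1)
  have hme : m = e ⊤ := by
    by_contra hme
    obtain ⟨b, hb, -, hb2, -⟩ := exists_e_le hme
    have h1 := (hm (fs {b} (finite_singleton b) (by simpa using hb.ne')) ⟨rfl, fun h => h⟩).2.1
    exact absurd (hb2 (h1 rfl)) (lt_irrefl _)
  subst hme
  obtain ⟨c, hc, hc'⟩ := exists_gt_lt_top (bot_lt_top (α := Ω))
  obtain ⟨x, ⟨d, hd, rfl⟩, -, s, ⟨hs, -⟩, hse⟩ := mem_closure_iff.1 hmc (W c) (isOpen_W hc)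
    ⟨⊤, le_top, rfl⟩
  have h1 : d ≤ ⊥ := hs ▸ hse.1
  exact absurd (hc'.trans_le (hd.trans h1)) (lt_irrefl _)

end

/-! ### the well-order -/

open Ordinal in
lemma bdd_omega1 (f : ℕ → (ω₁ : Ordinal.{0}).ToType) : ∃ b, ∀ n, f n < b := by
  have h1 : ∀ n, ((ToType.mk.symm (f n) : Iio (ω₁ : Ordinal.{0})) : Ordinal.{0}) < ω₁ :=
    fun n => (ToType.mk.symm (f n)).2
  have h2 : (⨆ n, ((ToType.mk.symm (f n) : Iio (ω₁ : Ordinal.{0})) : Ordinal.{0})) < ω₁ :=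
    Ordinal.iSup_lt_omega_one h1
  have h3 : Order.succ (⨆ n, ((ToType.mk.symm (f n) : Iio (ω₁ : Ordinal.{0})) : Ordinal.{0})) < ω₁ :=
    (Cardinal.isSuccLimit_omega 1).succ_lt h2
  refine ⟨ToType.mk ⟨_, h3⟩, fun n => ?_⟩
  rw [← (ToType.mk (o := (ω₁ : Ordinal.{0}))).symm_apply_lt]
  exact Order.lt_succ_of_le (Ordinal.le_iSup
    (fun n => ((ToType.mk.symm (f n) : Iio (ω₁ : Ordinal.{0})) : Ordinal.{0})) n)

/-- the well-order `1 + ω₁ + 1`, of order type `ω₁ + 1` -/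
abbrev Om : Type := WithTop (WithBot (Ordinal.ToType (Ordinal.omega 1 : Ordinal.{0})))

instance : Nonempty (Ordinal.ToType (Ordinal.omega 1 : Ordinal.{0})) := by
  obtain ⟨b, hb⟩ : ∃ b : Ordinal.{0}, b < Ordinal.omega 1 := ⟨0, Ordinal.omega_pos 1⟩
  exact ⟨Ordinal.ToType.mk ⟨b, hb⟩⟩

instance : Big Om := by
  refine ⟨fun f hf => ?_⟩
  choose g hg using fun n => WithTop.ne_top_iff_exists.1 (hf n).ne
  obtain ⟨c⟩ : Nonempty (Ordinal.ToType (Ordinal.omega 1 : Ordinal.{0})) := inferInstance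
  obtain ⟨b, hb⟩ := bdd_omega1 (fun n => WithBot.unbotD c (g n))
  refine ⟨((b : WithBot (Ordinal.ToType (Ordinal.omega 1 : Ordinal.{0}))) : Om),
    WithTop.coe_lt_top _, fun n => ?_⟩
  rw [← hg n, WithTop.coe_lt_coe]
  have h := hb n
  rcases hn : g n with _ | y
  · exact WithBot.bot_lt_coe b
  · rw [hn] at h
    exact WithBot.coe_lt_coe.2 h

theorem result : ∃ (X : Type) (_ : SemilatticeInf X) (_ : TopologicalSpace X)
    (_ : ContinuousInf X) (_ : T2Space X),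
    (∀ L : Set X, IsMaxChain (· ≤ ·) L → SComplete L) ∧ ¬ SComplete (Set.univ : Set X) :=
  ⟨Pt Om, inferInstance, inferInstance, inferInstance, inferInstance,
    fun _ hL => sComplete_of_isMaxChain hL, not_sComplete_univ⟩

end Pool.Agent.Results.MP_cb28d9_gt.MaximalChains
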